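import Pool.Agent.helper58.CRO.SpecB

/-!
# MP_5bf3c3_gt, row PAI: counting pairs
-/

set_option autoImplicit false

open scoped Manifold ContDiff Topology ENNReal
open MeasureTheory Set

noncomputable section

namespace Pool.Agent.CRO

theorem PAI_detne {n : ℕ} (B : En n →L[ℝ] En n) (h : ∀ v, v ≠ 0 → 0 < inner ℝ (B v) v) :
    B.det ≠ 0 := by
  intro h0
  have h1 : ⊥ < LinearMap.ker (B : En n →ₗ[ℝ] En n) := LinearMap.bot_lt_ker_of_det_eq_zero h0
  obtain ⟨v, hv, hv0⟩ := SetLike.exists_of_lt h1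
  have hv1 : v ≠ 0 := fun h => hv0 (by rw [h]; exact Submodule.zero_mem _)
  have h2 := h v hv1
  have h3 : B v = 0 := hv
  rw [h3, inner_zero_left] at h2
  exact lt_irrefl _ h2

theorem PAI_detpos {n : ℕ} (A : En n →L[ℝ] En n) (hA : PosDefOp A) : 0 < A.det := by
  obtain ⟨f, hf⟩ : ∃ f : ℝ → ℝ, f = fun τ : ℝ =>
      ((1 - τ) • ContinuousLinearMap.id ℝ (En n) + τ • A).det := ⟨_, rfl⟩
  have hc : Continuous f := by
    rw [hf]
    apply ContinuousLinearMap.continuous_det.comp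
    fun_prop
  have h0 : f 0 = 1 := by
    rw [hf]
    show ((1 - (0 : ℝ)) • ContinuousLinearMap.id ℝ (En n) + (0 : ℝ) • A).det = 1
    have e : (1 - (0 : ℝ)) • ContinuousLinearMap.id ℝ (En n) + (0 : ℝ) • A =
        ContinuousLinearMap.id ℝ (En n) := by
      ext v
      simp
    rw [e]
    exact LinearMap.det_id
  have h1 : f 1 = A.det := by
    rw [hf]
    show ((1 - (1 : ℝ)) • ContinuousLinearMap.id ℝ (En n) + (1 : ℝ) • A).det = A.det
    have e : (1 - (1 : ℝ)) • ContinuousLinearMap.id ℝ (En n) + (1 : ℝ) • A = A := by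
      ext v
      simp
    rw [e]
  by_contra hneg
  rw [not_lt, ← h1] at hneg
  have h2 := intermediate_value_Icc' (show (0 : ℝ) ≤ 1 by norm_num) hc.continuousOn
  obtain ⟨τ, hτ, hτ0⟩ := h2 ⟨hneg, by rw [h0]; norm_num⟩
  rw [hf] at hτ0
  refine PAI_detne ((1 - τ) • ContinuousLinearMap.id ℝ (En n) + τ • A) ?_ hτ0
  intro v hv
  have e : inner ℝ (((1 - τ) • ContinuousLinearMap.id ℝ (En n) + τ • A) v) v =
      (1 - τ) * inner ℝ v v + τ * inner ℝ (A v) v := by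
    show inner ℝ ((1 - τ) • v + τ • A v) v = _
    rw [inner_add_left, real_inner_smul_left, real_inner_smul_left]
  rw [e]
  have hv2 : 0 < inner ℝ v v := real_inner_self_pos.2 hv
  have hv3 := hA.2 v hv
  rcases eq_or_lt_of_le hτ.2 with h | h
  · rw [h]
    linarith
  · have h4 : 0 < (1 - τ) * inner ℝ v v := mul_pos (by linarith) hv2
    have h5 : 0 ≤ τ * inner ℝ (A v) v := mul_nonneg hτ.1 hv3.le
    linarith

/-- the density -/
def PAI_d {n : ℕ} {r0 : ℝ} (𝒢 : NChart n r0) (x : En n) : ℝ := (Real.sqrt (𝒢.G x).det)⁻¹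

theorem PAI_cont {n : ℕ} {r0 : ℝ} (𝒢 : NChart n r0) :
    ContinuousOn (PAI_d 𝒢) (Metric.ball 0 r0) := by
  unfold PAI_d
  apply ContinuousOn.inv₀
  · apply Real.continuous_sqrt.comp_continuousOn
    exact ContinuousLinearMap.continuous_det.comp_continuousOn 𝒢.smooth.continuousOn
  · intro x hx
    rw [mem_ball_zero_iff] at hx
    exact (Real.sqrt_pos.2 (PAI_detpos _ (𝒢.pos x hx))).ne'

theorem PAI_int {n : ℕ} {r0 : ℝ} (𝒢 : NChart n r0) (ρ : ℝ) (hρ : ρ < r0) :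
    ENNReal.ofReal (VV 𝒢 ρ) = ∫⁻ x in Metric.ball (0 : En n) ρ, ENNReal.ofReal (PAI_d 𝒢 x) := by
  unfold VV
  apply ofReal_integral_eq_lintegral_ofReal
  · have h1 : IntegrableOn (PAI_d 𝒢) (Metric.closedBall (0 : En n) ρ) := by
      apply ContinuousOn.integrableOn_compact (isCompact_closedBall 0 ρ)
      exact (PAI_cont 𝒢).mono (Metric.closedBall_subset_ball hρ)
    exact h1.mono_set Metric.ball_subset_closedBall
  · exact Filter.Eventually.of_forall fun x => inv_nonneg.2 (Real.sqrt_nonneg _)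

theorem PAI_aem {n : ℕ} {r0 : ℝ} (𝒢 : NChart n r0) (ρ : ℝ) (hρ : ρ < r0) :
    AEMeasurable (fun x => ENNReal.ofReal (PAI_d 𝒢 x))
      (volume.restrict (Metric.ball (0 : En n) ρ)) := by
  apply ENNReal.measurable_ofReal.comp_aemeasurable
  apply ContinuousOn.aemeasurable _ Metric.isOpen_ball.measurableSet
  exact (PAI_cont 𝒢).mono (Metric.ball_subset_ball hρ.le)

/-- the derivative of the pair map -/
def PAI_D {n : ℕ} (Φ : ℝ → PS n → PS n) (s t : ℝ) (z : PS n) : PS n →L[ℝ] PS n :=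
  ((ContinuousLinearMap.fst ℝ (En n) (En n)).prod
    ((ContinuousLinearMap.fst ℝ (En n) (En n)).comp (fderiv ℝ (Φ (t - s)) (Φ s z)))).comp
      (fderiv ℝ (Φ s) z)

theorem PAI_hasD {n : ℕ} {f : PS n → PS n} (Φ : ℝ → PS n → PS n) (h : IsC1Flow f Φ) (s t : ℝ)
    (z : PS n) : HasFDerivAt (fun z => ((Φ s z).1, (Φ t z).1)) (PAI_D Φ s t z) z := by
  have h1 : HasFDerivAt (Φ s) (fderiv ℝ (Φ s) z) z := (h.diff s z).hasFDerivAt
  have h2 : HasFDerivAt (Φ (t - s)) (fderiv ℝ (Φ (t - s)) (Φ s z)) (Φ s z) :=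
    (h.diff (t - s) (Φ s z)).hasFDerivAt
  have h3 : HasFDerivAt (fun y : PS n => (y.1, (Φ (t - s) y).1))
      ((ContinuousLinearMap.fst ℝ (En n) (En n)).prod
        ((ContinuousLinearMap.fst ℝ (En n) (En n)).comp (fderiv ℝ (Φ (t - s)) (Φ s z))))
      (Φ s z) := by
    apply HasFDerivAt.prodMk
    · exact hasFDerivAt_fst
    · exact (ContinuousLinearMap.fst ℝ (En n) (En n)).hasFDerivAt.comp (Φ s z) h2
  have h4 := h3.comp z h1
  have e : (fun z => ((Φ s z).1, (Φ t z).1)) =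
      (fun y : PS n => (y.1, (Φ (t - s) y).1)) ∘ Φ s := by
    funext z
    show ((Φ s z).1, (Φ t z).1) = ((Φ s z).1, (Φ (t - s) (Φ s z)).1)
    rw [← h.add, sub_add_cancel]
  rw [e]
  exact h4

theorem PAI_det {n : ℕ} (Φ : ℝ → PS n → PS n) (hBKD : BKD_stmt) (s t : ℝ) (z : PS n)
    (h : |(fderiv ℝ (Φ s) z).det| = 1) :
    |(PAI_D Φ s t z).det| = |(BB Φ (t - s) (Φ s z)).det| := by
  have h1 : (PAI_D Φ s t z).det = ((ContinuousLinearMap.fst ℝ (En n) (En n)).prod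
      ((ContinuousLinearMap.fst ℝ (En n) (En n)).comp (fderiv ℝ (Φ (t - s)) (Φ s z)))).det *
      (fderiv ℝ (Φ s) z).det := LinearMap.det_comp _ _
  rw [h1, hBKD n (fderiv ℝ (Φ (t - s)) (Φ s z)), abs_mul, h, mul_one]
  rfl

theorem PAI (h1 : INJ_stmt) (h2 : NRG_stmt) (h3 : DT1_stmt) (h4 : BKD_stmt) : PAI_stmt := by
  intro n r0 r1 L 𝒢 H Φ _ hG hE A a s t ρ1 ρ2 hA has hst hta htL hA1 hA2 hρ1 hρ2
  have ha : 0 < a := by linarith
  have hdet : ∀ z, |(fderiv ℝ (Φ s) z).det| = 1 := fun z =>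
    h3 n _ (fun v w => hG.symp_eq s z v w)
  -- injectivity
  have hinj : InjOn (fun z : PS n => ((Φ s z).1, (Φ t z).1)) A := by
    intro z hz z' hz' he
    obtain ⟨he1, he2⟩ := Prod.mk.inj he
    have hn : ∀ z ∈ A, nrm2 𝒢 (Φ s z) < 1 := by
      intro z hz
      rw [h2 n r0 r1 𝒢 H Φ hG z s (hA1 z hz).1 (fun u hu => (hA1 z hz).2 u ?_)]
      · exact (hA1 z hz).1
      · rw [mem_uIcc] at hu
        rcases hu with hu | hu
        · exact ⟨by linarith [hu.1], by linarith [hu.2]⟩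
        · exact ⟨by linarith [hu.1], by linarith [hu.2]⟩
    have hr : ∀ z ∈ A, ∀ r ∈ Icc 0 (t - s), ‖(Φ r (Φ s z)).1‖ < r1 := by
      intro z hz r hr
      rw [← hG.add]
      exact (hA1 z hz).2 (r + s) ⟨by linarith [hr.1], by linarith [hr.2]⟩
    have hy : Φ s z = Φ s z' := by
      apply h1 n r0 r1 L 𝒢 H Φ hG hE (Φ s z) (Φ s z') (t - s) (by linarith) htL (hn z hz)
        (hn z' hz') he1 (hr z hz) (hr z' hz')
      rw [← hG.add, ← hG.add, sub_add_cancel]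
      exact he2
    have hz1 : Φ (-s) (Φ s z) = z := by rw [← hG.add, neg_add_cancel, hG.zero]
    have hz2 : Φ (-s) (Φ s z') = z' := by rw [← hG.add, neg_add_cancel, hG.zero]
    rw [← hz1, hy, hz2]
  -- change of variables
  have hhaar : ((volume : Measure (En n)).prod (volume : Measure (En n))).IsAddHaarMeasure :=
    inferInstance
  have hhaar2 : (volume : Measure (PS n)).IsAddHaarMeasure := hhaar
  have hcv := lintegral_image_eq_lintegral_abs_det_fderiv_mul (volume : Measure (PS n)) hA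
    (fun z _ => (PAI_hasD Φ hG.toIsC1Flow s t z).hasFDerivWithinAt) hinj
    (fun q : PS n => ENNReal.ofReal (PAI_d 𝒢 q.1) * ENNReal.ofReal (PAI_d 𝒢 q.2))
  have hlhs : ∫⁻ z in A, ENNReal.ofReal (|(BB Φ (t - s) (Φ s z)).det| /
        Real.sqrt ((𝒢.G (Φ s z).1).det * (𝒢.G (Φ t z).1).det)) =
      ∫⁻ z in A, ENNReal.ofReal |(PAI_D Φ s t z).det| *
        (ENNReal.ofReal (PAI_d 𝒢 (Φ s z).1) * ENNReal.ofReal (PAI_d 𝒢 (Φ t z).1)) := by
    apply setLIntegral_congr_fun hA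
    intro z hz
    show ENNReal.ofReal (|(BB Φ (t - s) (Φ s z)).det| /
        Real.sqrt ((𝒢.G (Φ s z).1).det * (𝒢.G (Φ t z).1).det)) =
      ENNReal.ofReal |(PAI_D Φ s t z).det| *
        (ENNReal.ofReal (PAI_d 𝒢 (Φ s z).1) * ENNReal.ofReal (PAI_d 𝒢 (Φ t z).1))
    have hp1 := PAI_detpos _ (𝒢.pos (Φ s z).1 ((hA2 z hz).1.trans hρ1))
    unfold PAI_d
    rw [PAI_det Φ h4 s t z (hdet z), Real.sqrt_mul hp1.le,
      ← ENNReal.ofReal_mul (inv_nonneg.2 (Real.sqrt_nonneg _)),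
      ← ENNReal.ofReal_mul (abs_nonneg _)]
    congr 1
    rw [div_eq_mul_inv, mul_inv]
  rw [hlhs]
  rw [← hcv]
  -- Tonelli
  have hsub : (fun z : PS n => ((Φ s z).1, (Φ t z).1)) '' A ⊆
      Metric.ball (0 : En n) ρ1 ×ˢ Metric.ball (0 : En n) ρ2 := by
    rintro _ ⟨z, hz, rfl⟩
    exact ⟨mem_ball_zero_iff.2 (hA2 z hz).1, mem_ball_zero_iff.2 (hA2 z hz).2⟩
  refine (lintegral_mono_set hsub).trans (le_of_eq ?_)
  have hV : 0 ≤ VV 𝒢 ρ1 := integral_nonneg fun x => inv_nonneg.2 (Real.sqrt_nonneg _)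
  rw [ENNReal.ofReal_mul hV, PAI_int 𝒢 ρ1 hρ1, PAI_int 𝒢 ρ2 hρ2,
    ← lintegral_prod_mul (PAI_aem 𝒢 ρ1 hρ1) (PAI_aem 𝒢 ρ2 hρ2), Measure.prod_restrict]
  rfl

end Pool.Agent.CRO
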