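import Pool.Agent.helper58.CRO.SpecB

/-!
# MP_5bf3c3_gt, row REV: reversibility
-/

set_option autoImplicit false

open scoped Manifold ContDiff Topology ENNReal
open MeasureTheory Set

noncomputable section

namespace Pool.Agent.CRO

/-- the reversal of the momentum -/
def REV_i (n : ℕ) : PS n →L[ℝ] PS n :=
  (ContinuousLinearMap.fst ℝ (En n) (En n)).prod (-(ContinuousLinearMap.snd ℝ (En n) (En n)))

theorem REV_i_apply {n : ℕ} (z : PS n) : REV_i n z = (z.1, -z.2) := rfl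

theorem REV_lip {n : ℕ} (H : PS n → ℝ) (hH : ContDiff ℝ ∞ H) (hc : HasCompactSupport H) :
    ∃ K, LipschitzWith K (hvf H) := by
  have h1 : ContDiff ℝ 1 (fderiv ℝ H) := (hH.fderiv_right (m := ∞) (by simp)).of_le (by simp)
  have h2 : HasCompactSupport (fderiv ℝ H) := hc.fderiv ℝ
  obtain ⟨K, hK⟩ := h1.lipschitzWith_of_hasCompactSupport h2 (by norm_num)
  refine ⟨K * (‖ContinuousLinearMap.inr ℝ (En n) (En n)‖₊ +
    ‖ContinuousLinearMap.inl ℝ (En n) (En n)‖₊), LipschitzWith.of_dist_le_mul fun z w => ?_⟩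
  have h3 : ∀ J : En n →L[ℝ] PS n, dist ((InnerProductSpace.toDual ℝ (En n)).symm
      ((fderiv ℝ H z).comp J)) ((InnerProductSpace.toDual ℝ (En n)).symm
      ((fderiv ℝ H w).comp J)) ≤ K * ‖J‖ * dist z w := by
    intro J
    rw [LinearIsometryEquiv.dist_map, dist_eq_norm, ← ContinuousLinearMap.sub_comp]
    refine (ContinuousLinearMap.opNorm_comp_le _ _).trans ?_
    have h4 := hK.dist_le_mul z w
    rw [dist_eq_norm] at h4
    calc ‖fderiv ℝ H z - fderiv ℝ H w‖ * ‖J‖ ≤ (K * dist z w) * ‖J‖ :=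
          mul_le_mul_of_nonneg_right h4 (norm_nonneg _)
      _ = K * ‖J‖ * dist z w := by ring
  have h5 := h3 (ContinuousLinearMap.inr ℝ (En n) (En n))
  have h6 := h3 (ContinuousLinearMap.inl ℝ (En n) (En n))
  have hd : 0 ≤ dist z w := dist_nonneg
  have hK0 : (0 : ℝ) ≤ K := K.2
  have hr : (0 : ℝ) ≤ ‖ContinuousLinearMap.inr ℝ (En n) (En n)‖ := norm_nonneg _
  have hl : (0 : ℝ) ≤ ‖ContinuousLinearMap.inl ℝ (En n) (En n)‖ := norm_nonneg _
  rw [NNReal.coe_mul, NNReal.coe_add, coe_nnnorm, coe_nnnorm, Prod.dist_eq]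
  apply max_le
  · refine h5.trans ?_
    apply mul_le_mul_of_nonneg_right _ hd
    apply mul_le_mul_of_nonneg_left _ hK0
    linarith
  · have e : dist (hvf H z).2 (hvf H w).2 = dist ((InnerProductSpace.toDual ℝ (En n)).symm
      ((fderiv ℝ H z).comp (ContinuousLinearMap.inl ℝ (En n) (En n))))
      ((InnerProductSpace.toDual ℝ (En n)).symm
      ((fderiv ℝ H w).comp (ContinuousLinearMap.inl ℝ (En n) (En n)))) := dist_neg_neg _ _
    rw [e]
    refine h6.trans ?_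
    apply mul_le_mul_of_nonneg_right _ hd
    apply mul_le_mul_of_nonneg_left _ hK0
    linarith

theorem REV_nrm {n : ℕ} {r0 : ℝ} (𝒢 : NChart n r0) (z : PS n) :
    nrm2 𝒢 (z.1, -z.2) = nrm2 𝒢 z := by
  unfold nrm2
  show inner ℝ (𝒢.G z.1 (-z.2)) (-z.2) = inner ℝ (𝒢.G z.1 z.2) z.2
  rw [map_neg, inner_neg_neg]

/-- the vector field at the reversed point -/
theorem REV_hvf {n : ℕ} {r0 r1 : ℝ} {𝒢 : NChart n r0} {H : PS n → ℝ} {Φ : ℝ → PS n → PS n}
    (hG : IsGFlow 𝒢 r1 H Φ) (y : PS n) (hy : ‖y.1‖ < r1) (hy2 : nrm2 𝒢 y < 2) :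
    hvf H (y.1, -y.2) = (-(hvf H y).1, (hvf H y).2) := by
  -- `H` is even near `y`
  have hcont : ContinuousAt (nrm2 𝒢) y := by
    have h1 : ContinuousAt 𝒢.G y.1 :=
      (𝒢.smooth.continuousOn).continuousAt (Metric.isOpen_ball.mem_nhds
        (mem_ball_zero_iff.2 (hy.trans hG.r1lt)))
    have h2 : ContinuousAt (fun z : PS n => 𝒢.G z.1) y := h1.comp continuousAt_fst
    have h3 : ContinuousAt (fun z : PS n => 𝒢.G z.1 z.2) y := h2.clm_apply continuousAt_snd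
    exact h3.inner continuousAt_snd
  have hev : H ∘ (REV_i n) =ᶠ[𝓝 y] H := by
    have h1 : ∀ᶠ z : PS n in 𝓝 y, ‖z.1‖ < r1 :=
      (continuousAt_fst.norm).eventually_lt continuousAt_const hy
    have h2 : ∀ᶠ z : PS n in 𝓝 y, nrm2 𝒢 z < 2 := hcont.eventually_lt continuousAt_const hy2
    filter_upwards [h1, h2] with z hz1 hz2
    show H (z.1, -z.2) = H z
    rw [hG.eqH (z.1, -z.2) hz1 (by rw [REV_nrm]; exact hz2), hG.eqH z hz1 hz2]
    unfold ham
    rw [REV_nrm]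
  have hd : fderiv ℝ H y = (fderiv ℝ H (y.1, -y.2)).comp (REV_i n) := by
    rw [← hev.fderiv_eq]
    have h1 : HasFDerivAt H (fderiv ℝ H (REV_i n y)) (REV_i n y) :=
      (hG.smoothH.differentiable (by simp)).differentiableAt.hasFDerivAt
    exact (h1.comp y (REV_i n).hasFDerivAt).fderiv
  have e1 : (fderiv ℝ H y).comp (ContinuousLinearMap.inr ℝ (En n) (En n)) =
      -((fderiv ℝ H (y.1, -y.2)).comp (ContinuousLinearMap.inr ℝ (En n) (En n))) := by
    ext v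
    rw [hd]
    show fderiv ℝ H (y.1, -y.2) ((0 : En n), -v) = -(fderiv ℝ H (y.1, -y.2) ((0 : En n), v))
    rw [← map_neg]
    congr 1
    show ((0 : En n), -v) = (-(0 : En n), -v)
    rw [neg_zero]
  have e2 : (fderiv ℝ H y).comp (ContinuousLinearMap.inl ℝ (En n) (En n)) =
      (fderiv ℝ H (y.1, -y.2)).comp (ContinuousLinearMap.inl ℝ (En n) (En n)) := by
    ext v
    rw [hd]
    show fderiv ℝ H (y.1, -y.2) (v, -(0 : En n)) = fderiv ℝ H (y.1, -y.2) (v, (0 : En n))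
    rw [neg_zero]
  unfold hvf
  rw [e1, e2, map_neg, neg_neg]

theorem REV (_h1 : HVA_stmt) (h2 : SPD_stmt) : REV_stmt := by
  intro n r0 r1 𝒢 H Φ hG z ρ u hz hu
  rcases eq_or_ne u 0 with rfl | hu0
  · rw [neg_zero, hG.zero, hG.zero]
    show z = (z.1, - -z.2)
    rw [neg_neg]
  obtain ⟨K, hK⟩ := REV_lip H hG.smoothH hG.cptH
  have hz' : (z.1, -z.2) ∈ ZZ 𝒢 ρ := ⟨hz.1, by
    show nrm2 𝒢 (z.1, -z.2) < 1
    rw [REV_nrm]; exact hz.2⟩
  have hreg : ∀ τ : ℝ, |τ| ≤ |u| → ‖(Φ τ (z.1, -z.2)).1‖ < r1 ∧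
      nrm2 𝒢 (Φ τ (z.1, -z.2)) < 2 := by
    intro τ hτ
    obtain ⟨h3, h4⟩ := h2 n r0 r1 𝒢 H Φ hG (z.1, -z.2) ρ τ hz' (by linarith)
    refine ⟨by linarith, ?_⟩
    rw [h4]
    have := hz'.2
    linarith
  have hc1 : ∀ τ : ℝ, HasDerivAt (fun τ => Φ (-τ) z) (-(hvf H (Φ (-τ) z))) τ := by
    intro τ
    have h3 := (hG.ode z (-τ)).scomp τ (hasDerivAt_neg τ)
    rw [neg_smul, one_smul] at h3
    exact h3
  have hc2 : ∀ τ : ℝ, |τ| ≤ |u| →
      HasDerivAt (fun τ => REV_i n (Φ τ (z.1, -z.2)))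
        (-(hvf H (REV_i n (Φ τ (z.1, -z.2))))) τ := by
    intro τ hτ
    have h3 := (REV_i n).hasFDerivAt.comp_hasDerivAt τ (hG.ode (z.1, -z.2) τ)
    obtain ⟨h4, h5⟩ := hreg τ hτ
    have h6 := REV_hvf hG (Φ τ (z.1, -z.2)) h4 h5
    have h7 : -(hvf H (REV_i n (Φ τ (z.1, -z.2)))) = REV_i n (hvf H (Φ τ (z.1, -z.2))) := by
      rw [REV_i_apply, REV_i_apply, h6]
      show (- -(hvf H (Φ τ (z.1, -z.2))).1, -(hvf H (Φ τ (z.1, -z.2))).2) = _
      rw [neg_neg]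
    rw [h7]
    exact h3
  have hpos : 0 < |u| := abs_pos.2 hu0
  have hun := ODE_solution_unique_of_mem_Icc (v := fun _ y => -(hvf H y))
    (s := fun _ => (univ : Set (PS n))) (K := K) (a := -|u|) (b := |u|) (t₀ := 0)
    (f := fun τ => Φ (-τ) z) (g := fun τ => REV_i n (Φ τ (z.1, -z.2)))
    (fun t _ => (hK.neg).lipschitzOnWith)
    ⟨by linarith, hpos⟩
    (fun τ _ => (hc1 τ).continuousAt.continuousWithinAt)
    (fun τ _ => hc1 τ) (fun _ _ => mem_univ _)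
    (fun τ hτ => (hc2 τ (abs_le.2 hτ)).continuousAt.continuousWithinAt)
    (fun τ hτ => hc2 τ (abs_le.2 ⟨hτ.1.le, hτ.2.le⟩)) (fun _ _ => mem_univ _)
    (by
      show Φ (-0) z = REV_i n (Φ 0 (z.1, -z.2))
      rw [neg_zero, hG.zero, hG.zero, REV_i_apply]
      show z = (z.1, - -z.2)
      rw [neg_neg])
  exact hun (show u ∈ Icc (-|u|) |u| from abs_le.1 le_rfl)

end Pool.Agent.CRO
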