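import Pool.Agent.helper58.CRO.SpecE

open scoped Manifold ContDiff Topology ENNReal
open MeasureTheory Set Bundle Filter

noncomputable section

namespace Pool.Agent.CRO

/-- Injective smooth map with injective derivatives on an open set: an open partial homeomorphism with
smooth inverse. -/
theorem SPN_loc {n : ℕ} (F : En n → En n) (B : Set (En n)) (hB : IsOpen B) (hF : ContDiffOn ℝ ∞ F B)
    (hinj : InjOn F B) (hd : ∀ y ∈ B, Function.Injective (fderiv ℝ F y)) :
    ∃ Fh : OpenPartialHomeomorph (En n) (En n), Fh.source = B ∧ (∀ y, Fh y = F y) ∧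
      ContDiffOn ℝ ∞ Fh.symm Fh.target := by
  classical
  have hc : ∀ y ∈ B, ContDiffAt ℝ ∞ F y := fun y hy => (hF y hy).contDiffAt (hB.mem_nhds hy)
  have heq : ∀ y ∈ B, ∃ L : En n ≃L[ℝ] En n, (L : En n →L[ℝ] En n) = fderiv ℝ F y := by
    intro y hy
    refine ⟨(LinearEquiv.ofInjectiveEndo ((fderiv ℝ F y : En n →L[ℝ] En n) : En n →ₗ[ℝ] En n)
      (hd y hy)).toContinuousLinearEquiv, ?_⟩
    ext v
    rfl
  have hstrict : ∀ y ∈ B, HasStrictFDerivAt F (fderiv ℝ F y) y := fun y hy =>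
    (hc y hy).hasStrictFDerivAt (by simp)
  have hopen : IsOpenMap (B.domRestrict F) := by
    rw [isOpenMap_iff_nhds_le]
    rintro ⟨a, ha⟩
    obtain ⟨L, hL⟩ := heq a ha
    have h1 : HasStrictFDerivAt F (L : En n →L[ℝ] En n) a := by
      rw [hL]; exact hstrict a ha
    have h2 := h1.map_nhds_eq_of_equiv
    have h3 : Filter.map (B.domRestrict F) (𝓝 (⟨a, ha⟩ : B)) =
        Filter.map F (Filter.map (Subtype.val : B → En n) (𝓝 (⟨a, ha⟩ : B))) := by
      rw [Filter.map_map]; rfl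
    rw [h3, map_nhds_subtype_coe_eq_nhds ha (hB.mem_nhds ha), h2]
    exact le_refl _
  have : Nonempty (En n) := ⟨0⟩
  have hcont : ContinuousOn (hinj.toPartialEquiv F B) (hinj.toPartialEquiv F B).source :=
    hF.continuousOn
  let Fh : OpenPartialHomeomorph (En n) (En n) :=
    OpenPartialHomeomorph.ofContinuousOpenRestrict (hinj.toPartialEquiv F B) hcont hopen hB
  refine ⟨Fh, rfl, fun y => rfl, ?_⟩
  intro a ha
  have hs : Fh.symm a ∈ B := Fh.map_target ha
  obtain ⟨L, hL⟩ := heq _ hs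
  have h1 : HasFDerivAt Fh (L : En n →L[ℝ] En n) (Fh.symm a) := by
    rw [hL]; exact (hstrict _ hs).hasFDerivAt
  exact (Fh.contDiffAt_symm ha h1 (hc _ hs)).contDiffWithinAt

theorem SPN_J (n : ℕ) (x : Sn n) : ∃ J : En n →ₗᵢ[ℝ] En (n + 1),
    ∀ v, inner ℝ (x : En (n + 1)) (J v) = 0 := by
  have := Fact.mk (@finrank_euclideanSpace_fin ℝ _ (n + 1))
  let U : (ℝ ∙ (x : En (n + 1)))ᗮ ≃ₗᵢ[ℝ] En n :=
    (OrthonormalBasis.fromOrthogonalSpanSingleton n (ne_zero_of_mem_unit_sphere x)).repr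
  refine ⟨(ℝ ∙ (x : En (n + 1)))ᗮ.subtypeₗᵢ.comp U.symm.toLinearIsometry, fun v => ?_⟩
  exact Submodule.mem_orthogonal_singleton_iff_inner_right.1 (U.symm v).2

theorem SPN (h1 : SPE_stmt) : SPN_stmt := by
  intro n x
  have hfact := Fact.mk (@finrank_euclideanSpace_fin ℝ _ (n + 1))
  obtain ⟨J, hJ⟩ := SPN_J n x
  have hx : ‖(x : En (n + 1))‖ = 1 := norm_eq_of_mem_sphere x
  obtain ⟨hE, hE1, hinj, hsurj, hder⟩ := h1 n x J hx hJ
  clear hsurj
  obtain ⟨E, hEdef⟩ : ∃ E : En n → En (n + 1), E = fun y => Real.cos ‖y‖ • (x : En (n + 1)) +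
    Real.sinc ‖y‖ • J y := ⟨_, rfl⟩
  rw [← hEdef] at hE hinj hder
  have hEap : ∀ y, E y = Real.cos ‖y‖ • (x : En (n + 1)) + Real.sinc ‖y‖ • J y := fun y => by
    rw [hEdef]
  have hmem : ∀ y, E y ∈ Metric.sphere (0 : En (n + 1)) 1 := fun y => by
    rw [mem_sphere_zero_iff_norm, hEap]; exact hE1 y
  obtain ⟨E', hE'def⟩ : ∃ E' : En n → Sn n, E' = Set.codRestrict E _ hmem := ⟨_, rfl⟩
  have hE'val : ∀ y, ((E' y : Sn n) : En (n + 1)) = E y := fun y => by rw [hE'def]; rfl
  have hE' : ContMDiff 𝓘(ℝ, En n) (𝓡 n) ∞ E' := by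
    rw [hE'def]; exact hE.contMDiff.codRestrict_sphere hmem
  obtain ⟨φ, hφdef⟩ : ∃ φ : OpenPartialHomeomorph (Sn n) (En n), φ = chartAt (En n) x := ⟨_, rfl⟩
  have hφs : φ.source = {-x}ᶜ := by rw [hφdef]; exact stereographic'_source (-x)
  have hφt : φ.target = univ := by rw [hφdef]; exact stereographic'_target (-x)
  have hφ1 : ContMDiffOn (𝓡 n) (𝓡 n) ∞ φ φ.source := by rw [hφdef]; exact contMDiffOn_chart
  have hφ2 : ContMDiffOn (𝓡 n) (𝓡 n) ∞ φ.symm φ.target := by
    rw [hφdef]; exact contMDiffOn_chart_symm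
  have hsrc : ∀ y ∈ Metric.ball (0 : En n) Real.pi, E' y ∈ φ.source := by
    intro y hy
    rw [hφs, mem_compl_iff, mem_singleton_iff]
    intro h
    have h2 : E y = -(x : En (n + 1)) := by
      rw [← hE'val, h]; rfl
    have h3 : inner ℝ (x : En (n + 1)) (E y) = Real.cos ‖y‖ := by
      rw [hEap, inner_add_right, inner_smul_right, inner_smul_right, hJ, real_inner_self_eq_norm_sq,
        hx]
      ring
    rw [h2, inner_neg_right, real_inner_self_eq_norm_sq, hx] at h3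
    have h4 : Real.cos Real.pi < Real.cos ‖y‖ :=
      Real.cos_lt_cos_of_nonneg_of_le_pi (norm_nonneg y) le_rfl (mem_ball_zero_iff.1 hy)
    rw [Real.cos_pi, ← h3] at h4
    norm_num at h4
  obtain ⟨F, hFdef⟩ : ∃ F : En n → En n, F = φ ∘ E' := ⟨_, rfl⟩
  have hF : ContDiffOn ℝ ∞ F (Metric.ball (0 : En n) Real.pi) := by
    rw [hFdef]
    exact contMDiffOn_iff_contDiffOn.1 (hφ1.comp hE'.contMDiffOn hsrc)
  have hFinj : InjOn F (Metric.ball (0 : En n) Real.pi) := by
    intro y hy z hz h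
    rw [hFdef] at h
    have h2 := φ.injOn (hsrc y hy) (hsrc z hz) h
    refine hinj hy hz ?_
    rw [← hE'val, ← hE'val, h2]
  obtain ⟨ψ, hψdef⟩ : ∃ ψ : En n → En (n + 1), ψ = fun z => ((φ.symm z : Sn n) : En (n + 1)) :=
    ⟨_, rfl⟩
  have hψ : ContDiff ℝ ∞ ψ := by
    rw [← contDiffOn_univ, ← contMDiffOn_iff_contDiffOn, ← hφt, hψdef]
    exact (contMDiff_coe_sphere (n := n) (m := ∞)).comp_contMDiffOn hφ2
  have hFder : ∀ y ∈ Metric.ball (0 : En n) Real.pi, Function.Injective (fderiv ℝ F y) := by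
    intro y hy
    have hnhds : Metric.ball (0 : En n) Real.pi ∈ 𝓝 y := Metric.isOpen_ball.mem_nhds hy
    have hFd : DifferentiableAt ℝ F y := ((hF y hy).contDiffAt hnhds).differentiableAt (by simp)
    have hψd : DifferentiableAt ℝ ψ (F y) := (hψ.differentiable (by simp)) (F y)
    have hev : E =ᶠ[𝓝 y] ψ ∘ F := by
      filter_upwards [hnhds] with z hz
      rw [hψdef, hFdef, Function.comp_apply, Function.comp_apply, φ.left_inv (hsrc z hz), hE'val]
    have hfd : fderiv ℝ E y = (fderiv ℝ ψ (F y)).comp (fderiv ℝ F y) := by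
      rw [hev.fderiv_eq, fderiv_comp y hψd hFd]
    intro v w hvw
    refine hder y hy ?_
    rw [hfd, ContinuousLinearMap.comp_apply, ContinuousLinearMap.comp_apply, hvw]
  obtain ⟨Fh, hFs, hFa, hFsm⟩ := SPN_loc F _ Metric.isOpen_ball hF hFinj hFder
  have hE0 : E' 0 = x := by
    apply Subtype.ext
    rw [hE'val, hEap, norm_zero, Real.cos_zero, Real.sinc_zero, map_zero, smul_zero, add_zero,
      one_smul]
  have hball0 : (0 : En n) ∈ Metric.ball (0 : En n) Real.pi := Metric.mem_ball_self Real.pi_pos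
  have hφx : φ x = Fh 0 := by
    rw [hFa, hFdef, Function.comp_apply, hE0]
  have hFh : ContDiffOn ℝ ∞ Fh Fh.source := by
    rw [hFs]
    exact hF.congr fun y _ => hFa y
  refine ⟨φ ≫ₕ Fh.symm, J, ?_, ?_, ?_, ?_, hJ, ?_⟩
  · apply OpenPartialHomeomorph.mem_maximalAtlas_of_contMDiffOn
    · rw [OpenPartialHomeomorph.trans_source]
      exact (contMDiffOn_iff_contDiffOn.2 hFsm).comp (hφ1.mono inter_subset_left)
        (fun y hy => hy.2)
    · rw [OpenPartialHomeomorph.trans_target, OpenPartialHomeomorph.symm_target,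
        OpenPartialHomeomorph.symm_symm]
      exact hφ2.comp ((contMDiffOn_iff_contDiffOn.2 hFh).mono inter_subset_left)
        (fun y hy => hy.2)
  · rw [OpenPartialHomeomorph.trans_target, OpenPartialHomeomorph.symm_target, hφt, preimage_univ,
      inter_univ, hFs]
  · rw [OpenPartialHomeomorph.trans_source]
    refine ⟨by rw [hφdef]; exact mem_chart_source (En n) x, ?_⟩
    rw [mem_preimage, hφx]
    exact Fh.map_source (by rw [hFs]; exact hball0)
  · rw [OpenPartialHomeomorph.coe_trans, Function.comp_apply, hφx]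
    exact Fh.left_inv (by rw [hFs]; exact hball0)
  · intro y hy
    rw [OpenPartialHomeomorph.coe_trans_symm, Function.comp_apply, OpenPartialHomeomorph.symm_symm,
      hFa, hFdef, Function.comp_apply, φ.left_inv (hsrc y hy), hE'val, hEap]

end Pool.Agent.CRO
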